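import Pool.Agent.L7h71.UC.Stm

set_option autoImplicit false

/-!
# Project UC: fixed equality pattern of the named points, infinitely many points without name
-/

namespace Pool.Agent.L7h71.UC.Csp

open Set Function
open Pool.Agent.H533R2.VO (RS RIso Dich)
open Pool.Agent.L7h66.UA (XS XIso XYo S_LRC)
open Pool.Agent.L7h71.UC

variable {a : ℕ → ℕ} {P : Type}

/-- quantifier-free types over `P` -/
abbrev KP (a : ℕ → ℕ) (P : Type) (r : ℕ) : Type := ∀ i, (Fin (a i) → P ⊕ Fin r) → Bool

/-- codes -/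
abbrev NS (a : ℕ → ℕ) (P : Type) : Type := XS (fun r => r) (KP a P) ℕ

/-- coherence -/
def Coh (N : NS a P) : Prop :=
  ∀ (r r' : ℕ) (u : Fin r' → ℕ) (t : Fin r → Fin r') (i : ℕ) (s : Fin (a i) → P ⊕ Fin r),
    N r (u ∘ t) i s = N r' u i (Sum.map id t ∘ s)

theorem fact {r n : ℕ} (w : Fin n → ℕ) (u : Fin r → ℕ) (h : ∀ j, u j ∈ range w) :
    ∃ t : Fin r → Fin n, u = w ∘ t := by
  choose t ht using h
  exact ⟨t, funext fun j => (ht j).symm⟩

theorem map_comp' {A B C D E : Type} (g : C → D) (h : D → E) (s : A → B ⊕ C) :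
    Sum.map (id : B → B) h ∘ Sum.map id g ∘ s = Sum.map id (h ∘ g) ∘ s := by
  funext j
  show Sum.map id h (Sum.map id g (s j)) = _
  rw [Sum.map_map]
  rfl

theorem Coh.dep {N : NS a P} (hN : Coh N) {r r' : ℕ} {u : Fin r → ℕ} {u' : Fin r' → ℕ} {i : ℕ}
    {s : Fin (a i) → P ⊕ Fin r} {s' : Fin (a i) → P ⊕ Fin r'}
    (h : Sum.map id u ∘ s = Sum.map id u' ∘ s') : N r u i s = N r' u' i s' := by
  classical
  let Z : Finset ℕ := Finset.univ.image u ∪ Finset.univ.image u'
  let w : Fin Z.card → ℕ := Z.orderEmbOfFin rfl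
  have hw : range w = Z := Finset.range_orderEmbOfFin Z rfl
  have hwi : Injective w := (Z.orderEmbOfFin rfl).injective
  obtain ⟨t, ht⟩ := fact w u fun j => by
    rw [hw]
    exact Finset.mem_coe.2 (Finset.mem_union_left _ (Finset.mem_image_of_mem _ (Finset.mem_univ j)))
  obtain ⟨t', ht'⟩ := fact w u' fun j => by
    rw [hw]
    exact Finset.mem_coe.2 (Finset.mem_union_right _ (Finset.mem_image_of_mem _ (Finset.mem_univ j)))
  have h1 : Sum.map id t ∘ s = Sum.map id t' ∘ s' := by
    have hinj : Injective (Sum.map (id : P → P) w) := injective_id.sumMap hwi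
    funext j
    apply hinj
    have := congrFun h j
    rw [ht, ht'] at this
    have e1 := congrFun (map_comp' t w s) j
    have e2 := congrFun (map_comp' t' w s') j
    exact (e1.trans this).trans e2.symm
  rw [ht, ht', hN, hN, h1]

/-- the numbers (`0` for points of `P`) -/
def uv {n : ℕ} (w : Fin n → P ⊕ ℕ) : Fin n → ℕ := fun j => Sum.elim (fun _ => 0) id (w j)

/-- the pattern -/
def sv {n : ℕ} (w : Fin n → P ⊕ ℕ) : Fin n → P ⊕ Fin n := fun j => Sum.map id (fun _ => j) (w j)

theorem uv_sv {n : ℕ} (w : Fin n → P ⊕ ℕ) : Sum.map id (uv w) ∘ sv w = w := by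
  funext j
  show Sum.map id (uv w) (Sum.map id (fun _ => j) (w j)) = w j
  rcases h : w j with z | m
  · rfl
  · show Sum.inr (uv w j) = Sum.inr m
    unfold uv
    rw [h]
    rfl

/-- the value -/
def ev (N : NS a P) (i : ℕ) (w : Fin (a i) → P ⊕ ℕ) : Bool := N (a i) (uv w) i (sv w)

theorem Coh.ev_eq {N : NS a P} (hN : Coh N) {r : ℕ} (u : Fin r → ℕ) (i : ℕ)
    (s : Fin (a i) → P ⊕ Fin r) : N r u i s = ev N i (Sum.map id u ∘ s) :=
  hN.dep (uv_sv _).symm

variable (β : ℕ ≃ P ⊕ ℕ)

/-- the decoded structure -/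
def dec (N : NS a P) : RS a := fun i v => ev N i (β ∘ v)

theorem dec_symm (N : NS a P) (i : ℕ) (w : Fin (a i) → P ⊕ ℕ) :
    dec β N i (β.symm ∘ w) = ev N i w := by
  unfold dec
  congr 1
  funext j
  exact β.apply_symm_apply _

theorem continuous_ev (i : ℕ) (w : Fin (a i) → P ⊕ ℕ) : Continuous fun N : NS a P => ev N i w :=
  (continuous_apply (sv w)).comp ((continuous_apply i).comp ((continuous_apply (uv w)).comp
    (continuous_apply (a i))))

theorem continuous_dec : Continuous (dec (a := a) β) :=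
  continuous_pi fun i => continuous_pi fun _ => continuous_ev i _

variable {Kc : Set ℕ} (q : Kc → P)

/-- `k` names exactly the point `inl (q k)`. -/
def NC (N : NS a P) : Prop := ∀ (k : Kc) (p : ℕ), Nm (dec β N) k p ↔ β p = Sum.inl (q k)

theorem nm_iff (N : NS a P) (k p : ℕ) : Nm (dec β N) k p ↔ ev N k (fun _ => β p) = true := Iff.rfl

variable {β q}

theorem coh_of_local {F : Finset ℕ} {N N' : NS a P} (hN : Coh N) (h : XYo F N N') : Coh N' := by
  classical
  intro r r' u t i s
  obtain ⟨e, -, -, h3⟩ := h (Finset.univ.image u)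
  have h4 := h3 r' u fun j => Finset.mem_image_of_mem _ (Finset.mem_univ j)
  have h5 := h3 r (u ∘ t) fun j => Finset.mem_image_of_mem _ (Finset.mem_univ (t j))
  have e1 := congrFun (congrFun h4 i) (Sum.map id t ∘ s)
  have e2 := congrFun (congrFun h5 i) s
  exact e2.symm.trans ((hN r r' (e ∘ u) t i s).trans e1)

theorem ev_local {N N' : NS a P} (hN : Coh N) {X : Finset ℕ} {e : ℕ → ℕ}
    (h3 : ∀ (r : ℕ) (x : Fin r → ℕ), (∀ j, x j ∈ X) → N r (e ∘ x) = N' r x) (h0 : 0 ∈ X) {i : ℕ}
    {w : Fin (a i) → P ⊕ ℕ} (hw : ∀ j m, w j = Sum.inr m → m ∈ X) :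
    ev N i (Sum.map id e ∘ w) = ev N' i w := by
  have h4 : ∀ j, uv w j ∈ X := by
    intro j
    unfold uv
    rcases h : w j with z | m
    · exact h0
    · exact hw j m h
  have e1 := congrFun (congrFun (h3 (a i) (uv w) h4) i) (sv w)
  show _ = N' (a i) (uv w) i (sv w)
  rw [← e1, hN.ev_eq]
  congr 1
  rw [← map_comp' (uv w) e (sv w), uv_sv]

theorem nc_of_local {F : Finset ℕ} {N N' : NS a P} (hN : Coh N) (hc : NC β q N)
    (h : XYo F N N') : NC β q N' := by
  classical
  intro k p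
  obtain ⟨e, -, -, h3⟩ := h {0, Sum.elim (fun _ => 0) id (β p)}
  have h4 : ev N k (Sum.map id e ∘ fun _ => β p) = ev N' k (fun _ => β p) := by
    refine ev_local hN h3 (Finset.mem_insert_self _ _) fun j m hm => ?_
    refine Finset.mem_insert_of_mem (Finset.mem_singleton.2 ?_)
    have hm' : β p = Sum.inr m := hm
    rw [hm']
    rfl
  rw [nm_iff, ← h4]
  have h5 : (Sum.map id e ∘ fun _ : Fin (a k) => β p) =
      fun _ => β (β.symm (Sum.map id e (β p))) := by
    funext _
    exact (β.apply_symm_apply _).symm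
  rw [h5, ← nm_iff, hc k, β.apply_symm_apply]
  rcases β p with z | m
  · exact Iff.rfl
  · exact ⟨fun h => (by cases h), fun h => (by cases h)⟩

theorem NC.cs {N : NS a P} (hc : NC β q N) : Cs Kc (dec β N) := by
  intro k hk
  refine ⟨β.symm (Sum.inl (q ⟨k, hk⟩)), (hc ⟨k, hk⟩ _).2 (β.apply_symm_apply _), fun p hp => ?_⟩
  rw [← (hc ⟨k, hk⟩ p).1 hp, β.symm_apply_apply]

theorem NC.cp {N : NS a P} (hc : NC β q N) (hq : Surjective q) (p : ℕ) :
    p ∈ CP Kc (dec β N) ↔ ∃ z, β p = Sum.inl z := by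
  constructor
  · rintro ⟨k, hk, hp⟩
    exact ⟨_, (hc ⟨k, hk⟩ p).1 hp⟩
  · rintro ⟨z, hz⟩
    obtain ⟨k, rfl⟩ := hq z
    exact ⟨k, k.2, (hc k p).2 hz⟩

theorem NC.inf {N : NS a P} (hc : NC β q N) (hq : Surjective q) :
    (CP Kc (dec β N))ᶜ.Infinite := by
  refine (infinite_range_of_injective (f := fun m : ℕ => β.symm (Sum.inr m)) ?_).mono ?_
  · intro m m' h
    exact Sum.inr_injective (β.symm.injective h)
  · rintro _ ⟨m, rfl⟩
    intro h
    obtain ⟨z, hz⟩ := (hc.cp hq _).1 h
    rw [β.apply_symm_apply] at hz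
    cases hz

theorem perm_of (σ : Equiv.Perm ℕ) (h : ∀ p z, β p = Sum.inl z ↔ β (σ p) = Sum.inl z) :
    ∃ e : Equiv.Perm ℕ, ∀ w : P ⊕ ℕ, β (σ (β.symm w)) = Sum.map id e w := by
  have h1 : ∀ z, β (σ (β.symm (Sum.inl z))) = Sum.inl z := fun z =>
    (h _ _).1 (β.apply_symm_apply _)
  have h2 : ∀ m, ∃ m', β (σ (β.symm (Sum.inr m))) = Sum.inr m' := by
    intro m
    rcases h3 : β (σ (β.symm (Sum.inr m))) with z | m'
    · have h4 := (h _ _).2 h3
      rw [β.apply_symm_apply] at h4
      cases h4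
    · exact ⟨m', rfl⟩
  have h2' : ∀ m, ∃ m', β (σ.symm (β.symm (Sum.inr m))) = Sum.inr m' := by
    intro m
    rcases h3 : β (σ.symm (β.symm (Sum.inr m))) with z | m'
    · have h4 := (h _ _).1 h3
      rw [σ.apply_symm_apply, β.apply_symm_apply] at h4
      cases h4
    · exact ⟨m', rfl⟩
  choose f hf using h2
  choose g hg using h2'
  refine ⟨⟨f, g, fun m => ?_, fun m => ?_⟩, fun w => ?_⟩
  · have h3 := hg (f m)
    rw [← hf m, β.symm_apply_apply, σ.symm_apply_apply, β.apply_symm_apply] at h3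
    exact (Sum.inr_injective h3).symm
  · have h3 := hf (g m)
    rw [← hg m, β.symm_apply_apply, σ.apply_symm_apply, β.apply_symm_apply] at h3
    exact (Sum.inr_injective h3).symm
  · rcases w with z | m
    · exact h1 z
    · exact hf m

theorem iso_up (hq : Surjective q) {N N' : NS a P} (hN : Coh N) (hN' : Coh N') (hc : NC β q N)
    (hc' : NC β q N') (h : RIso (dec β N) (dec β N')) : XIso N N' := by
  obtain ⟨σ, hσ⟩ := h
  have h1 : ∀ p z, β p = Sum.inl z ↔ β (σ p) = Sum.inl z := by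
    intro p z
    obtain ⟨k, rfl⟩ := hq z
    rw [← hc k p, ← hc' k (σ p)]
    have h2 := hσ k (fun _ => p)
    unfold Nm
    rw [← h2]
    exact Iff.rfl
  obtain ⟨e, he⟩ := perm_of σ h1
  refine ⟨e, fun r u => ?_⟩
  funext i s
  rw [hN'.ev_eq, hN.ev_eq, ← dec_symm β, ← dec_symm β, ← hσ]
  congr 1
  funext j
  show β.symm (Sum.map id (e ∘ u) (s j)) = σ (β.symm (Sum.map id u (s j)))
  rw [Equiv.symm_apply_eq, he, Sum.map_map]
  rfl

theorem ev_iso {N N' : NS a P} (hN : Coh N) {e : ℕ ≃ ℕ}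
    (he : ∀ (r : ℕ) (u : Fin r → ℕ), N' r (e ∘ u) = N r u) (i : ℕ) (w : Fin (a i) → P ⊕ ℕ)
    (hN' : Coh N') : ev N' i (Sum.map id e ∘ w) = ev N i w := by
  have h1 : ev N' i (Sum.map id e ∘ w) = N' (a i) (e ∘ uv w) i (sv w) := by
    rw [hN'.ev_eq, ← map_comp' (uv w) e (sv w), uv_sv]
  rw [h1, he]
  rfl

theorem coh_iso {N N' : NS a P} (hN : Coh N) {e : ℕ ≃ ℕ}
    (he : ∀ (r : ℕ) (u : Fin r → ℕ), N' r (e ∘ u) = N r u) : Coh N' := by
  intro r r' u t i s
  have h1 : u = e ∘ (e.symm ∘ u) := by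
    funext j
    exact (e.apply_symm_apply _).symm
  have h2 : u ∘ t = e ∘ ((e.symm ∘ u) ∘ t) := by
    funext j
    exact (e.apply_symm_apply _).symm
  rw [h2, he, hN r r' (e.symm ∘ u) t i s, ← he, ← h1]

theorem s_CSP (hL : S_LRC) : S_CSP := by
  classical
  intro a Kc P _ q hq B hB hiso hpat hloc
  have hPN : Nonempty (ℕ ≃ P ⊕ ℕ) := by
    have : Nonempty (Denumerable (P ⊕ ℕ)) := nonempty_denumerable _
    obtain ⟨hd⟩ := this
    exact ⟨(Denumerable.eqv (P ⊕ ℕ)).symm⟩
  obtain ⟨β⟩ := hPN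
  let B' : Set (NS a P) := {N | Coh N ∧ NC β q N ∧ dec β N ∈ B}
  have i1 : ∀ r, SecondCountableTopology (KP a P r) := fun r => inferInstance
  have i2 : ∀ r, TopologicalSpace.IsCompletelyMetrizableSpace (KP a P r) := fun r => inferInstance
  have i3 : ∀ r, PolishSpace (KP a P r) := fun r => {}
  have i4 : ∀ r, BorelSpace (KP a P r) := fun r => inferInstance
  have i5 : ∀ r, BorelSpace ((Fin r → ℕ) → KP a P r) := fun r => inferInstance
  have i6 : ∀ r, SecondCountableTopology ((Fin r → ℕ) → KP a P r) := fun r => inferInstance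
  have i7 : BorelSpace (NS a P) := inferInstanceAs (BorelSpace (∀ r, (Fin r → ℕ) → KP a P r))
  have hB' : MeasurableSet B' := by
    refine MeasurableSet.inter ?_ (MeasurableSet.inter ?_ ?_)
    · have : {N : NS a P | Coh N} = ⋂ (r : ℕ) (r' : ℕ) (u : Fin r' → ℕ) (t : Fin r → Fin r')
          (i : ℕ) (s : Fin (a i) → P ⊕ Fin r),
          {N | N r (u ∘ t) i s = N r' u i (Sum.map id t ∘ s)} := by
        ext N
        simp only [mem_iInter]
        exact Iff.rfl
      show MeasurableSet {N : NS a P | Coh N}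
      rw [this]
      refine IsClosed.measurableSet ?_
      refine isClosed_iInter fun r => isClosed_iInter fun r' => isClosed_iInter fun u =>
        isClosed_iInter fun t => isClosed_iInter fun i => isClosed_iInter fun s =>
          isClosed_eq ?_ ?_
      · exact (continuous_apply _).comp ((continuous_apply i).comp ((continuous_apply _).comp
          (continuous_apply r)))
      · exact (continuous_apply _).comp ((continuous_apply i).comp ((continuous_apply _).comp
          (continuous_apply r')))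
    · have : {N : NS a P | NC β q N} = ⋂ (k : Kc) (p : ℕ),
          {N | Nm (dec β N) k p ↔ β p = Sum.inl (q k)} := by
        ext N
        simp only [mem_iInter]
        exact Iff.rfl
      show MeasurableSet {N : NS a P | NC β q N}
      rw [this]
      refine MeasurableSet.iInter fun k => MeasurableSet.iInter fun p => ?_
      exact ((isClopen_discrete {b : Bool | b = true ↔ β p = Sum.inl (q k)}).preimage
        (continuous_ev (k : ℕ) (fun _ => β p))).1.measurableSet
    · exact (continuous_dec β).measurable hB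
  have hiso' : ∀ N ∈ B', ∀ N', XIso N N' → N' ∈ B' := by
    rintro N ⟨h1, h2, h3⟩ N' ⟨e, he⟩
    have hN' : Coh N' := coh_iso h1 he
    have hr : ∀ i (v : Fin (a i) → ℕ),
        dec β N' i ((β.trans ((Equiv.sumCongr (Equiv.refl P) e).trans β.symm)) ∘ v) =
          dec β N i v := by
      intro i v
      have h4 := ev_iso h1 he i (β ∘ v) hN'
      show ev N' i (β ∘ _) = ev N i (β ∘ v)
      rw [← h4]
      congr 1
      funext j
      show β (β.symm (Sum.map id e (β (v j)))) = _
      rw [β.apply_symm_apply]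
      rfl
    refine ⟨hN', fun k p => ?_, hiso _ _ ⟨_, hr⟩ h3⟩
    have h4 := hr k (fun _ => β.symm (Sum.map id e.symm (β p)))
    have h5 : ((β.trans ((Equiv.sumCongr (Equiv.refl P) e).trans β.symm)) ∘
        fun _ : Fin (a k) => β.symm (Sum.map id e.symm (β p))) = fun _ => p := by
      funext j
      show β.symm (Sum.map id e (β (β.symm (Sum.map id e.symm (β p))))) = p
      rw [β.apply_symm_apply, Sum.map_map]
      rcases h6 : β p with z | m
      · show β.symm (Sum.inl z) = p
        rw [← h6, β.symm_apply_apply]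
      · show β.symm (Sum.inr (e (e.symm m))) = p
        rw [e.apply_symm_apply, ← h6, β.symm_apply_apply]
    rw [h5] at h4
    have h6 := h2 k (β.symm (Sum.map id e.symm (β p)))
    unfold Nm at h6 ⊢
    rw [h4, h6, β.apply_symm_apply]
    rcases β p with z | m
    · exact Iff.rfl
    · exact ⟨fun h => (by cases h), fun h => (by cases h)⟩
  have hloc' : ∀ N ∈ B', ∃ F : Finset ℕ, ∀ N', XYo F N N' → N' ∈ B' := by
    rintro N ⟨h1, h2, h3⟩
    obtain ⟨F, hF⟩ := hloc _ h3
    refine ⟨F.image fun p => Sum.elim (fun _ => 0) id (β p), fun N' h => ?_⟩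
    have hc' := nc_of_local h1 h2 h
    refine ⟨coh_of_local h1 h, hc', hF _ hc'.cs (hc'.inf hq) fun X => ?_⟩
    obtain ⟨e, he1, he2, he3⟩ := h (insert 0 (X.image fun p => Sum.elim (fun _ => 0) id (β p)))
    have hmem : ∀ p ∈ (↑X ∪ CP Kc (dec β N') : Set ℕ), ∀ m, β p = Sum.inr m →
        m ∈ insert 0 (X.image fun p => Sum.elim (fun _ => 0) id (β p)) := by
      rintro p (hp | hp) m hm
      · refine Finset.mem_insert_of_mem (Finset.mem_image.2 ⟨p, hp, ?_⟩)
        rw [hm]
        rfl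
      · obtain ⟨z, hz⟩ := (hc'.cp hq p).1 hp
        rw [hz] at hm
        cases hm
    refine ⟨fun p => β.symm (Sum.map id e (β p)), fun p hp p' hp' hpp => ?_, fun p hp => ?_,
      fun i v hv => ?_⟩
    · have h4 := β.symm.injective hpp
      apply β.injective
      rcases h5 : β p with z | m <;> rcases h6 : β p' with z' | m' <;> rw [h5, h6] at h4
      · exact h4
      · cases h4
      · cases h4
      · have h7 : e m = e m' := Sum.inr_injective h4
        rw [he1 (Finset.mem_coe.2 (hmem p hp m h5)) (Finset.mem_coe.2 (hmem p' hp' m' h6)) h7]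
    · show β.symm (Sum.map id e (β p)) = p
      rcases h5 : β p with z | m
      · show β.symm (Sum.inl z) = p
        rw [← h5, β.symm_apply_apply]
      · have h6 : e m = m := he2 m (Finset.mem_image.2 ⟨p, hp, by rw [h5]; rfl⟩)
        show β.symm (Sum.inr (e m)) = p
        rw [h6, ← h5, β.symm_apply_apply]
    · have h4 : ev N i (Sum.map id e ∘ (β ∘ v)) = ev N' i (β ∘ v) :=
        ev_local h1 he3 (Finset.mem_insert_self _ _) fun j m hm => hmem _ (hv j) m hm
      show ev N i (β ∘ _) = ev N' i (β ∘ v)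
      rw [← h4]
      congr 1
      funext j
      exact β.apply_symm_apply _
  have hcode : ∀ x ∈ B, ∃ N ∈ B', RIso (dec β N) x := by
    intro x hx
    obtain ⟨hc1, hc2, hc3⟩ := hpat x hx
    choose κ hκ using hq
    have hex : ∀ z, ∃ p, Nm x (κ z) p := fun z => (hc1 _ (κ z).2).exists
    choose c hc using hex
    have hci : Injective c := by
      intro z z' hzz
      have h4 := (hc3 (κ z) (κ z') _ _ (hc z) (hc z')).1 hzz
      rw [hκ, hκ] at h4
      exact h4
    have hcr : range c = CP Kc x := by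
      ext p
      constructor
      · rintro ⟨z, rfl⟩
        exact ⟨κ z, (κ z).2, hc z⟩
      · rintro ⟨k, hk, hp⟩
        exact ⟨q ⟨k, hk⟩, (hc3 (κ (q ⟨k, hk⟩)) ⟨k, hk⟩ _ _ (hc _) hp).2 (hκ _)⟩
    have hinf : Infinite ↥(CP Kc x)ᶜ := hc2.to_subtype
    obtain ⟨hd⟩ : Nonempty (Denumerable ↥(CP Kc x)ᶜ) := nonempty_denumerable _
    let ρ : ℕ ≃ ↥(CP Kc x)ᶜ := (Denumerable.eqv _).symm
    have hbij : Bijective (Sum.elim c fun n => (ρ n : ℕ)) := by
      constructor
      · rintro (z | m) (z' | m') h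
        · exact congrArg Sum.inl (hci h)
        · exact absurd (hcr ▸ mem_range_self z : c z ∈ CP Kc x) (by
            have h4 : c z = (ρ m' : ℕ) := h
            rw [h4]
            exact (ρ m').2)
        · exact absurd (hcr ▸ mem_range_self z' : c z' ∈ CP Kc x) (by
            have h4 : (ρ m : ℕ) = c z' := h
            rw [← h4]
            exact (ρ m).2)
        · exact congrArg Sum.inr (ρ.injective (Subtype.ext h))
      · intro p
        by_cases hp : p ∈ CP Kc x
        · rw [← hcr] at hp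
          obtain ⟨z, rfl⟩ := hp
          exact ⟨Sum.inl z, rfl⟩
        · exact ⟨Sum.inr (ρ.symm ⟨p, hp⟩), congrArg Subtype.val (ρ.apply_symm_apply ⟨p, hp⟩)⟩
    let γ : ℕ ≃ P ⊕ ℕ := (Equiv.ofBijective _ hbij).symm
    have hγ : ∀ z, γ.symm (Sum.inl z) = c z := fun z => rfl
    let N : NS a P := fun r u i s => x i (γ.symm ∘ Sum.map id u ∘ s)
    have hN : Coh N := by
      intro r r' u t i s
      show x i _ = x i _
      congr 1
      rw [← map_comp' t u s]
    have hev : ∀ i (w : Fin (a i) → P ⊕ ℕ), ev N i w = x i (γ.symm ∘ w) := by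
      intro i w
      show x i (γ.symm ∘ Sum.map id (uv w) ∘ sv w) = _
      rw [uv_sv]
    have hr : RIso (dec β N) x := by
      refine ⟨β.trans γ.symm, fun i v => ?_⟩
      show x i _ = ev N i (β ∘ v)
      rw [hev]
      rfl
    have hr' : RIso x (dec β N) := by
      refine ⟨γ.trans β.symm, fun i v => ?_⟩
      show ev N i (β ∘ _) = x i v
      rw [hev]
      congr 1
      funext j
      show γ.symm (β (β.symm (γ (v j)))) = v j
      rw [β.apply_symm_apply, γ.symm_apply_apply]
    refine ⟨N, ⟨hN, fun k p => ?_, hiso _ _ hr' hx⟩, hr⟩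
    have h4 : Nm (dec β N) k p ↔ Nm x k (γ.symm (β p)) := by
      rw [nm_iff, hev]
      exact Iff.rfl
    rw [h4]
    constructor
    · intro h5
      have h6 : γ.symm (β p) = c (q k) := (hc3 k (κ (q k)) _ _ h5 (hc _)).2 (hκ _).symm
      rw [← hγ] at h6
      exact γ.symm.injective h6
    · intro h5
      rw [h5, hγ]
      obtain ⟨p', hp', -⟩ := hc1 k k.2
      have h6 : p' = c (q k) := (hc3 k (κ (q k)) _ _ hp' (hc _)).2 (hκ _).symm
      rwa [← h6]
  rcases hL (fun r => r) (KP a P) B' hB' hiso' hloc' with ⟨C, hC, h⟩ | ⟨g, g1, g2, g3⟩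
  · left
    by_cases hne : C.Nonempty
    · obtain ⟨f, hf⟩ := hC.exists_eq_range hne
      refine ⟨fun n => dec β (f n), fun x hx => ?_⟩
      obtain ⟨N, hN, hNx⟩ := hcode x hx
      obtain ⟨N₀, hN₀, e, he⟩ := h N hN
      rw [hf] at hN₀
      obtain ⟨n, rfl⟩ := hN₀
      have h4 : RIso (dec β (f n)) (dec β N) := by
        have hfn : Coh (f n) := by
          refine coh_iso (e := e.symm) hN.1 fun r u => ?_
          rw [← he]
          congr 1
          funext j
          exact e.apply_symm_apply _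
        refine ⟨β.trans ((Equiv.sumCongr (Equiv.refl P) e).trans β.symm), fun i v => ?_⟩
        have h5 := ev_iso hfn he i (β ∘ v) hN.1
        show ev N i (β ∘ _) = ev (f n) i (β ∘ v)
        rw [← h5]
        congr 1
        funext j
        show β (β.symm (Sum.map id e (β (v j)))) = _
        rw [β.apply_symm_apply]
        rfl
      refine ⟨n, ?_⟩
      obtain ⟨σ, hσ⟩ := h4
      obtain ⟨τ, hτ⟩ := hNx
      exact ⟨σ.trans τ, fun i v => (hτ i (σ ∘ v)).trans (hσ i v)⟩
    · refine ⟨fun _ _ _ => true, fun x hx => ?_⟩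
      obtain ⟨N, hN, -⟩ := hcode x hx
      obtain ⟨N₀, hN₀, -⟩ := h N hN
      exact absurd ⟨N₀, hN₀⟩ hne
  · right
    refine ⟨fun c => dec β (g c), (continuous_dec β).comp g1, fun c => (g2 c).2.2, fun c d h => ?_⟩
    exact g3 c d (iso_up hq (g2 c).1 (g2 d).1 (g2 c).2.1 (g2 d).2.1 h)

end Pool.Agent.L7h71.UC.Csp
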