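import Pool.Agent.L7h66.UA.StmX
import Pool.Agent.L7h71.UN.Fo2
import Pool.Agent.W889.FO.St0

set_option autoImplicit false

/-!
# Project UC: constants

Goal: Vaught's conjecture for universal theories (plus finitely many `∃∀` sentences) in all countable
languages whose function symbols are constants (infinitely many constants are allowed), from the theorem
`S_LRC` of project UA.

Every part is a `def S_XXX : Prop`; a proof is a theorem `s_XXX (hypotheses) : S_XXX` in the file
`Pool/Agent/<folder>/UC/Xxx.lean`, namespace of your own, which imports this file.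
-/

namespace Pool.Agent.L7h71.UC

open Set Function FirstOrder FirstOrder.Language
open Pool.Agent.H533R2.VO (RS RIso Dich)
open Pool.Agent.L7h66.UA (XS XIso XYo S_LRC)
open Pool.Agent.L7h71.UN (IsEU)
open Pool.Agent.W889.FO (VaughtF)

variable {a : ℕ → ℕ}

/-- The relation with number `k` names the point `p`. -/
def Nm (x : RS a) (k p : ℕ) : Prop := x k (fun _ => p) = true

/-- The points named by the relations with numbers in `Kc`. -/
def CP (Kc : Set ℕ) (x : RS a) : Set ℕ := {p | ∃ k ∈ Kc, Nm x k p}

/-- Each `k ∈ Kc` names exactly one point. -/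
def Cs (Kc : Set ℕ) (x : RS a) : Prop := ∀ k ∈ Kc, ∃! p, Nm x k p

/-- Every finite piece of `y`, together with all the named points, embeds in `x` over `F`. (So `e`
preserves the names.) -/
def CYo (Kc : Set ℕ) (F : Finset ℕ) (x y : RS a) : Prop :=
  ∀ X : Finset ℕ, ∃ e : ℕ → ℕ, InjOn e (↑X ∪ CP Kc y) ∧ (∀ p ∈ F, e p = p) ∧
    ∀ i (v : Fin (a i) → ℕ), (∀ j, v j ∈ (↑X ∪ CP Kc y : Set ℕ)) → x i (e ∘ v) = y i v

/-- The equality pattern of the named points is given by `q`. -/
def Pat (Kc : Set ℕ) {P : Type} (q : Kc → P) (x : RS a) : Prop :=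
  ∀ (k l : Kc) (p p' : ℕ), Nm x k p → Nm x l p' → (p = p' ↔ q k = q l)

/-- CSP (200 lines), hypothesis `S_LRC` (helper71). Fixed equality pattern of the named points, infinitely
many points without name.

Proof. Fix `β : ℕ ≃ P ⊕ ℕ`. Let `K' r = ∀ i, (Fin (a i) → P ⊕ Fin r) → Bool`. Code a structure `y` on `P ⊕ ℕ` by
`N : XS id K' ℕ`, `N r u i s = y i (Sum.map id u ∘ s)`. `N` is coherent if `N r (u ∘ t) i s = N r' u i (Sum.map id t ∘ s)` for all
`u : Fin r' → ℕ`, `t : Fin r → Fin r'`; then `N r u i s` depends only on `Sum.map id u ∘ s`. Decode: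
`dec N i v = N (a i) u i s` with `u j` = the number of `β (v j)` (or `0` if it is in `P`) and `s j = inr j` (or `β (v j)`, if it is in
`P`). Apply `S_LRC` to `B' = {N | N coherent, k names exactly β⁻¹ (inl (q k)) in dec N, dec N ∈ B}`. -/
def S_CSP : Prop :=
  ∀ (a : ℕ → ℕ) (Kc : Set ℕ) (P : Type) [Countable P] (q : Kc → P), Surjective q →
    ∀ B : Set (RS a), MeasurableSet B → (∀ x y, RIso x y → x ∈ B → y ∈ B) →
    (∀ x ∈ B, Cs Kc x ∧ (CP Kc x)ᶜ.Infinite ∧ Pat Kc q x) →
    (∀ x ∈ B, ∃ F : Finset ℕ, ∀ y, Cs Kc y → (CP Kc y)ᶜ.Infinite → CYo Kc F x y → y ∈ B) → Dich B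

/-- CSF (100 lines, no hypotheses). Fixed equality pattern of the named points, `j` points without name.

Proof. `P ⊕ Fin j` is countable and infinite (if `B` is empty there is nothing to prove; otherwise the named
points and the others exhaust `ℕ`); fix `β : ℕ ≃ P ⊕ Fin j`. Let `Y` be the set of all `y ∈ B` such that `k` names exactly
`β⁻¹ (inl (q k))`, for all `k ∈ Kc`; it is Borel, so standard Borel. Each `x ∈ B` is isomorphic to some `y ∈ Y`. If `y, y' ∈ Y` are
isomorphic then by the permutation `β⁻¹ ∘ Sum.map id σ ∘ β` for some `σ ∈ Perm (Fin j)`. So with `J σ y` = the copy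
of `y` by this permutation, `σ ∈ Perm (Fin j)` (a finite set), isomorphic `y`, `y'` have the same values `J σ y`. Apply
`Pool.Agent.H565R2.FO2.perfect_of_uncountable` if `Y` is uncountable. -/
def S_CSF : Prop :=
  ∀ (a : ℕ → ℕ) (Kc : Set ℕ) (P : Type) [Countable P] (q : Kc → P), Surjective q →
    ∀ (j : ℕ) (B : Set (RS a)), MeasurableSet B → (∀ x y, RIso x y → x ∈ B → y ∈ B) →
    (∀ x ∈ B, Cs Kc x ∧ (CP Kc x)ᶜ.Finite ∧ (CP Kc x)ᶜ.ncard = j ∧ Pat Kc q x) → Dich B

/-- CST (150 lines), hypotheses `S_CSP`, `S_CSF`. The dichotomy for Borel classes with named points.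

Proof. The equality pattern `pat x (k, l) = decide (k ∈ Kc ∧ l ∈ Kc ∧ ∃ p, Nm x k p ∧ Nm x l p)` is a Borel function of `x` and an
invariant. If it takes uncountably many values on `B` then
`Pool.Agent.H565R2.FO2.perfect_of_uncountable` (`Y = B`, `J () x = pat x`) gives a Cantor family. Otherwise `B` is
the union of countably many classes `B_E` with a fixed pattern `E`; let `P` be the set of the least representatives
of the classes of `E` and `q` the obvious map. Divide `B_E` in the class of the `x` with infinitely many points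
without name (apply CSP; if `x ∈ B_E`, `Cs Kc y` and `CYo Kc F x y` then `y` has the pattern `E`, since `e` is injective on
the named points and preserves names) and the classes of the `x` with exactly `j` points without name
(CSF). All these classes are Borel and invariant. A countable union of classes with `Dich` has `Dich`. -/
def S_CST : Prop :=
  ∀ (a : ℕ → ℕ) (Kc : Set ℕ) (B : Set (RS a)), MeasurableSet B → (∀ x y, RIso x y → x ∈ B → y ∈ B) →
    (∀ x ∈ B, Cs Kc x) →
    (∀ x ∈ B, ∃ F : Finset ℕ, ∀ y, Cs Kc y → CYo Kc F x y → y ∈ B) → Dich B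

/-- The interpretation of a constant. -/
def cst {L : FirstOrder.Language.{0, 0}} (S : L.Structure ℕ) (c : L.Functions 0) : ℕ :=
  @Structure.funMap L ℕ S 0 c (fun i => i.elim0)

/-- EUC (150 lines, no hypotheses). Adapt `qf_real`, `univ_real`, `eu_real`, `eu_theory` of
`Pool.Agent.L7h71.UN.Fo` to languages with constants. (A term is a variable or a constant; `F` consists of the
witnesses; `e` is injective on `X` and the constants and preserves the constants.) -/
def S_EUC : Prop :=
  ∀ (L : FirstOrder.Language.{0, 0}), (∀ n, IsEmpty (L.Functions (n + 1))) → ∀ T : L.Theory,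
    {φ ∈ T | ¬ φ.IsUniversal}.Finite → (∀ φ ∈ T, IsEU φ) → ∀ S : L.Structure ℕ,
    @Theory.Model L ℕ S T → ∃ F : Finset ℕ, ∀ S' : L.Structure ℕ,
      (∀ X : Finset ℕ, ∃ e : ℕ → ℕ, (∀ m ∈ F, e m = m) ∧ InjOn e (↑X ∪ range (cst S')) ∧
        (∀ c, e (cst S' c) = cst S c) ∧
        ∀ (n : ℕ) (R : L.Relations n) (v : Fin n → ℕ), (∀ j, v j ∈ (↑X ∪ range (cst S') : Set ℕ)) →
          (@Structure.RelMap L ℕ S n R (e ∘ v) ↔ @Structure.RelMap L ℕ S' n R v)) →
      @Theory.Model L ℕ S' T

/-- FOC (150 lines), hypotheses `S_CST`, `S_EUC`. First-order theories in languages with constants.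

Proof. As `Pool.Agent.W889.FO.St0.reduce`: `Pool.Agent.W889.FO.St0.ax_theory T` gives a theory `T'` in the relational
language `LF L` such that `S ⊨ T'` iff `W S` and `D S ⊨ T`; as in the proof of `reduce` it is enough to prove
`Vaught (LF L) T'`. Let `e` be an injection of the relation symbols of `LF L` in `ℕ` (`he`). By
`Pool.Agent.L7h71.UN` `vaught_of he`, `md_meas`, `md_iso` (see `fo_univ` in `Pool.Agent.L7h71.UN.Fo`) it is enough to prove
`Dich (Md he T')`. Apply CST with `Kc = {e ⟨1, RF.fn c⟩ | c : L.Functions 0}`; the last hypothesis of CST follows from EUC. -/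
def S_FOC : Prop :=
  ∀ (L : FirstOrder.Language.{0, 0}), Countable L.Symbols → (∀ n, IsEmpty (L.Functions (n + 1))) →
    ∀ T : L.Theory, {φ ∈ T | ¬ φ.IsUniversal}.Finite → (∀ φ ∈ T, IsEU φ) → VaughtF L T

end Pool.Agent.L7h71.UC
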